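import Pool.Agent.Lib.MP_eee65c_al.Monomial
import Pool.Agent.Lib.MP_eee65c_al.Rank

/-!
# MP_eee65c_al, Q1

For a finitely generated rank-maximal subgroup `H` of a free group `F` of finite rank and any
field `K` (finite or not), the cyclic generators of the right `K[F]`-module `K[F] / J_H` are
exactly the images of the units of `K[F]`.
-/

namespace Pool.Agent.Results.MP_eee65c_al.CyclicGenerators

open Pool.Agent.Lib.MP_eee65c_al

universe u v

/-- The rank of a subgroup of a free group: the cardinality of a free basis. -/
noncomputable def freeRank {G : Type u} [Group G] [IsFreeGroup G] (H : Subgroup G) : Cardinal.{u} :=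
  Cardinal.mk (IsFreeGroup.Generators H)

/-- `H` is rank-maximal: no strictly larger subgroup has rank at most the rank of `H`. -/
def RankMaximal {G : Type u} [Group G] [IsFreeGroup G] (H : Subgroup G) : Prop :=
  ∀ H' : Subgroup G, H < H' → ¬ freeRank H' ≤ freeRank H

/-- The right ideal `J_H` of `K[G]` generated by the elements `h - 1` with `h` in `H`. -/
noncomputable def rightIdealJ (K : Type v) [Field K] {G : Type u} [Group G] (H : Subgroup G) :
    Submodule (MonoidAlgebra K G)ᵐᵒᵖ (MonoidAlgebra K G) :=
  Submodule.span (MonoidAlgebra K G)ᵐᵒᵖ {x | ∃ h ∈ H, x = MonoidAlgebra.single h 1 - 1}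

section General

variable (K : Type v) [Field K] {G : Type u} [Group G] (H : Subgroup G)

/-- The map `K[G] → K[G ⧸ H]`, `g ↦ g⁻¹ H`. -/
noncomputable def theta : MonoidAlgebra K G →ₗ[K] ((G ⧸ H) →₀ K) :=
  (Finsupp.lmapDomain K K (fun g : G => g⁻¹ • ((1 : G) : G ⧸ H))) ∘ₗ
    (MonoidAlgebra.coeffLinearEquiv K).toLinearMap

lemma theta_single (g : G) (c : K) :
    theta K H (MonoidAlgebra.single g c) = Finsupp.single (g⁻¹ • ((1 : G) : G ⧸ H)) c := by
  simp [theta]

/-- Coefficients of the image under inversion. -/
noncomputable def star : MonoidAlgebra K G →ₗ[K] (G →₀ K) :=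
  (Finsupp.lmapDomain K K (fun g : G => g⁻¹)) ∘ₗ (MonoidAlgebra.coeffLinearEquiv K).toLinearMap

lemma star_single (g : G) (c : K) :
    star K (MonoidAlgebra.single g c) = Finsupp.single g⁻¹ c := by
  simp [star]

lemma theta_mul (x w : MonoidAlgebra K G) : theta K H (x * w) = cl K (theta K H x) (star K w) := by
  induction w using MonoidAlgebra.induction_linear with
  | zero => simp
  | add f g hf hg => rw [mul_add, map_add, map_add, map_add, hf, hg]
  | single g c =>
    rw [star_single, cl_single]
    induction x using MonoidAlgebra.induction_linear with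
    | zero => simp
    | add f g hf hg => rw [add_mul, map_add, map_add, map_add, hf, hg, smul_add]
    | single h d =>
      rw [MonoidAlgebra.single_mul_single, theta_single, theta_single, rho_single,
        Finsupp.smul_single, smul_eq_mul, mul_comm c d, mul_inv_rev, mul_smul]

lemma theta_eq_zero {x : MonoidAlgebra K G} (hx : x ∈ rightIdealJ K H) : theta K H x = 0 := by
  unfold rightIdealJ at hx
  induction hx using Submodule.span_induction with
  | mem x hx =>
    obtain ⟨h, hh, rfl⟩ := hx
    have e1 : (1 : MonoidAlgebra K G) = MonoidAlgebra.single 1 1 := rfl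
    rw [map_sub, e1, theta_single, theta_single, sub_eq_zero]
    congr 1
    rw [inv_one, one_smul]
    have : h⁻¹ ∈ MulAction.stabilizer G ((1 : G) : G ⧸ H) := by
      rw [MulAction.stabilizer_quotient]; exact H.inv_mem hh
    exact this
  | zero => simp
  | add x y _ _ hx hy => rw [map_add, hx, hy, add_zero]
  | smul r x _ hx =>
    have e : r • x = x * r.unop := rfl
    rw [e, theta_mul, hx]
    rw [cl_sum_apply]
    apply Finset.sum_eq_zero
    intro g _
    simp

lemma sub_mem_of_theta {x y : MonoidAlgebra K G} (hxy : theta K H x = theta K H y) :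
    x - y ∈ rightIdealJ K H := by
  have htr : ∀ z : G ⧸ H, ∃ g : G, g⁻¹ • ((1 : G) : G ⧸ H) = z := by
    intro z
    obtain ⟨g, hg⟩ := MulAction.exists_smul_eq G ((1 : G) : G ⧸ H) z
    exact ⟨g⁻¹, by rw [inv_inv]; exact hg⟩
  choose σ hσ using htr
  let S : ((G ⧸ H) →₀ K) →ₗ[K] MonoidAlgebra K G :=
    Finsupp.linearCombination K (fun z => MonoidAlgebra.single (σ z) (1 : K))
  have key : ∀ v : MonoidAlgebra K G, v - S (theta K H v) ∈ rightIdealJ K H := by
    intro v
    induction v using MonoidAlgebra.induction_linear with
    | zero => simp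
    | add f g hf hg =>
      have : f + g - S (theta K H (f + g)) =
          (f - S (theta K H f)) + (g - S (theta K H g)) := by
        rw [map_add, map_add]; abel
      rw [this]
      exact Submodule.add_mem _ hf hg
    | single g c =>
      set g' := σ (g⁻¹ • ((1 : G) : G ⧸ H)) with hg'
      have e1 : S (theta K H (MonoidAlgebra.single g c)) = MonoidAlgebra.single g' c := by
        rw [theta_single]
        simp [S, hg']
      have hmem : g * g'⁻¹ ∈ H := by
        rw [← MulAction.stabilizer_quotient H, MulAction.mem_stabilizer_iff, mul_smul, hg', hσ,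
          smul_inv_smul]
      have e2 : MonoidAlgebra.single g c - S (theta K H (MonoidAlgebra.single g c)) =
          MulOpposite.op (MonoidAlgebra.single g' c) •
            (MonoidAlgebra.single (g * g'⁻¹) (1 : K) - 1) := by
        rw [e1]
        change _ = (MonoidAlgebra.single (g * g'⁻¹) (1 : K) - 1) * MonoidAlgebra.single g' c
        rw [sub_mul, MonoidAlgebra.single_mul_single, one_mul, inv_mul_cancel_right, one_mul]
      rw [e2]
      exact Submodule.smul_mem _ _ (Submodule.subset_span ⟨_, hmem, rfl⟩)
  have h1 := Submodule.sub_mem _ (key x) (key y)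
  have e : x - S (theta K H x) - (y - S (theta K H y)) = x - y := by
    rw [hxy]; abel
  rwa [e] at h1

lemma cl_self (x y : MonoidAlgebra K G) : cl K y.coeff x.coeff = (x * y).coeff := by
  induction x using MonoidAlgebra.induction_linear with
  | zero => simp
  | add f g hf hg =>
    rw [add_mul, MonoidAlgebra.coeff_add, map_add, hf, hg, MonoidAlgebra.coeff_add]
  | single g c =>
    rw [MonoidAlgebra.coeff_single, cl_single]
    induction y using MonoidAlgebra.induction_linear with
    | zero => simp
    | add f g hf hg =>
      rw [mul_add, MonoidAlgebra.coeff_add, map_add, smul_add, hf, hg, MonoidAlgebra.coeff_add]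
    | single h d =>
      rw [MonoidAlgebra.single_mul_single, MonoidAlgebra.coeff_single, MonoidAlgebra.coeff_single,
        rho_single, Finsupp.smul_single, smul_eq_mul, smul_eq_mul]

lemma aug_mul (x y : MonoidAlgebra K G) :
    aug K (x * y).coeff = aug K x.coeff * aug K y.coeff := by
  induction x using MonoidAlgebra.induction_linear with
  | zero => simp
  | add f g hf hg =>
    rw [add_mul, MonoidAlgebra.coeff_add, map_add, hf, hg, MonoidAlgebra.coeff_add, map_add,
      add_mul]
  | single g c =>
    induction y using MonoidAlgebra.induction_linear with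
    | zero => simp
    | add f g hf hg =>
      rw [mul_add, MonoidAlgebra.coeff_add, map_add, hf, hg, MonoidAlgebra.coeff_add, map_add,
        mul_add]
    | single h d =>
      rw [MonoidAlgebra.single_mul_single, MonoidAlgebra.coeff_single, MonoidAlgebra.coeff_single,
        MonoidAlgebra.coeff_single, aug_single, aug_single, aug_single]

end General

section Free

variable (K : Type v) [Field K] {α : Type u} [Fintype α] [DecidableEq α]

/-- Direct finiteness of the group algebra. -/
lemma mul_eq_one_comm_free {x y : MonoidAlgebra K (FreeGroup α)} (hxy : x * y = 1) : y * x = 1 := by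
  classical
  set e := 1 - y * x with he
  have h1 : x * e = 0 := by
    rw [he, mul_sub, mul_one, ← mul_assoc, hxy, one_mul, sub_self]
  have haug : aug K e.coeff = 0 := by
    have e1 : aug K (1 : MonoidAlgebra K (FreeGroup α)).coeff = 1 := by
      have : (1 : MonoidAlgebra K (FreeGroup α)) = MonoidAlgebra.single 1 1 := rfl
      rw [this, MonoidAlgebra.coeff_single, aug_single]
    have e2 := aug_mul K x y
    rw [hxy, e1] at e2
    rw [he, MonoidAlgebra.coeff_sub, map_sub, e1, aug_mul, mul_comm, ← e2, sub_self]
  have hx0 : x ≠ 0 := by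
    intro h0
    rw [h0, zero_mul] at hxy
    exact zero_ne_one hxy
  have hstab : MulAction.stabilizer (FreeGroup α) (1 : FreeGroup α) = ⊥ := by
    rw [eq_bot_iff]
    intro g hg
    rw [MulAction.mem_stabilizer_iff, smul_eq_mul, mul_one] at hg
    rw [hg]; exact Subgroup.one_mem _
  have h2 := torsion_free K (X := FreeGroup α) (o := 1) (fun x => ⟨x, by simp⟩)
    (ι := Empty) Empty.elim
    (by rw [hstab, Set.range_eq_empty, Subgroup.closure_empty])
    (by
      intro S hS
      rw [hstab] at hS
      rw [Fintype.card_empty]
      by_contra hcon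
      have : S = ∅ := by
        rw [← Finset.card_eq_zero]; omega
      rw [this, Finset.coe_empty, Subgroup.closure_empty] at hS
      exact lt_irrefl _ hS)
    e.coeff haug x.coeff
    (by
      intro h0
      apply hx0
      exact MonoidAlgebra.coeff_injective h0)
    (by rw [cl_self, h1]; rfl)
  have h3 : e = 0 := MonoidAlgebra.coeff_injective h2
  exact (sub_eq_zero.mp h3).symm

omit [Fintype α] [DecidableEq α] in
/-- A generating family of `H` of size the rank, and the two consequences of rank-maximality. -/
lemma rank_data (H : Subgroup (FreeGroup α)) (hfg : H.FG) (hmax : RankMaximal H) :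
    ∃ (r : ℕ) (h : Fin r → FreeGroup α), Subgroup.closure (Set.range h) = H ∧
      (∀ S : Finset (FreeGroup α), H < Subgroup.closure (S : Set (FreeGroup α)) →
        r + 1 ≤ S.card) ∧
      (∀ U : Subgroup (FreeGroup α), H < U →
        ∃ φ : U →* Multiplicative ℚ, φ ≠ 1 ∧ ∀ u : U, (u : FreeGroup α) ∈ H → φ u = 1) := by
  classical
  -- the rank of `H` is finite
  have hfin : Finite (IsFreeGroup.Generators H) := by
    have h1 : Group.FG H := (Group.fg_iff_subgroup_fg H).mpr hfg
    obtain ⟨S, hS⟩ := h1.out
    have h2 := rank_le (IsFreeGroup.basis H) (fun s : S => (s : H)) (by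
      rw [Subtype.range_coe_subtype]
      exact hS)
    exact Cardinal.lt_aleph0_iff_finite.mp (h2.trans_lt (Cardinal.natCast_lt_aleph0))
  have := Fintype.ofFinite (IsFreeGroup.Generators H)
  set r := Fintype.card (IsFreeGroup.Generators H) with hr
  let eq : Fin r ≃ IsFreeGroup.Generators H := (Fintype.equivFin _).symm
  have hrank : freeRank H = r := by
    unfold freeRank
    rw [Cardinal.mk_fintype]
  let hH : Fin r → H := fun j => IsFreeGroup.basis H (eq j)
  have hclH : Subgroup.closure (Set.range hH) = ⊤ := by
    have : Set.range hH = Set.range (IsFreeGroup.basis H) := by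
      exact eq.surjective.range_comp (IsFreeGroup.basis H)
    rw [this, closure_basis]
  have hcl : Subgroup.closure (Set.range (fun j => (hH j : FreeGroup α))) = H := by
    have h1 : Set.range (fun j => (hH j : FreeGroup α)) = H.subtype '' Set.range hH := by
      rw [← Set.range_comp]; rfl
    rw [h1, ← MonoidHom.map_closure, hclH, ← MonoidHom.range_eq_map, Subgroup.range_subtype]
  have hlt : ∀ U : Subgroup (FreeGroup α), H < U → (r : Cardinal) < freeRank U := by
    intro U hU
    have := hmax U hU
    rw [hrank, not_le] at this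
    exact this
  refine ⟨r, fun j => (hH j : FreeGroup α), hcl, ?_, ?_⟩
  · intro S hS
    have h1 := hlt _ hS
    set L := Subgroup.closure (S : Set (FreeGroup α)) with hL
    have h2 := rank_le (IsFreeGroup.basis L)
      (fun s : S => (⟨(s : FreeGroup α), Subgroup.subset_closure s.2⟩ : L)) (by
        have e : Set.range (fun s : S => (⟨(s : FreeGroup α), Subgroup.subset_closure s.2⟩ : L)) =
            ((↑) : L → FreeGroup α) ⁻¹' (S : Set (FreeGroup α)) := by
          ext x
          constructor
          · rintro ⟨s, rfl⟩; exact s.2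
          · intro hx; exact ⟨⟨x, hx⟩, rfl⟩
        rw [e]
        exact Subgroup.closure_closure_coe_preimage)
    rw [Fintype.card_coe] at h2
    have h3 : (r : Cardinal.{u}) < (S.card : Cardinal.{u}) := lt_of_lt_of_le h1 h2
    have h4 : r < S.card := by exact_mod_cast h3
    omega
  · intro U hU
    obtain ⟨e⟩ := emb_of_lt (hlt U hU)
    have e' : Fin (Fintype.card (Fin r) + 1) ↪ IsFreeGroup.Generators U := by
      rw [Fintype.card_fin]; exact e
    obtain ⟨φ, hφ, hφ1⟩ := exists_hom_rat (IsFreeGroup.basis U)
      (fun j : Fin r => (⟨(hH j : FreeGroup α), hU.le (hH j).2⟩ : U)) e'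
    refine ⟨φ, hφ1, ?_⟩
    intro u hu
    have hle : H ≤ (φ.ker).map U.subtype := by
      rw [← hcl, Subgroup.closure_le]
      rintro _ ⟨j, rfl⟩
      exact ⟨⟨(hH j : FreeGroup α), hU.le (hH j).2⟩, hφ j, rfl⟩
    obtain ⟨w, hw, hwu⟩ := hle hu
    have : w = u := Subtype.ext hwu
    rw [← this]
    exact hw

end Free

/-- **Main theorem.** Let `F` be a free group of finite rank, `K` any field and `H` a finitely
generated rank-maximal subgroup. An element `m` of the right `K[F]`-module `K[F] / J_H` generates
it if and only if it is the image of a unit of `K[F]`. -/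
theorem result (K : Type v) [Field K] {α : Type u} [Finite α] (H : Subgroup (FreeGroup α))
    (hfg : H.FG) (hmax : RankMaximal H)
    (m : MonoidAlgebra K (FreeGroup α) ⧸ rightIdealJ K H) :
    Submodule.span (MonoidAlgebra K (FreeGroup α))ᵐᵒᵖ {m} = ⊤ ↔
      ∃ u : (MonoidAlgebra K (FreeGroup α))ˣ,
        m = Submodule.Quotient.mk (u : MonoidAlgebra K (FreeGroup α)) := by
  classical
  have := Fintype.ofFinite α
  constructor
  · intro hm
    obtain ⟨x, rfl⟩ := Submodule.Quotient.mk_surjective _ m
    have h1 : (Submodule.Quotient.mk 1 : MonoidAlgebra K (FreeGroup α) ⧸ rightIdealJ K H) ∈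
        Submodule.span (MonoidAlgebra K (FreeGroup α))ᵐᵒᵖ
          {(Submodule.Quotient.mk x : MonoidAlgebra K (FreeGroup α) ⧸ rightIdealJ K H)} := by
      rw [hm]; exact Submodule.mem_top
    obtain ⟨w, hw⟩ := Submodule.mem_span_singleton.mp h1
    have h2 : x * w.unop - 1 ∈ rightIdealJ K H := by
      rw [← Submodule.Quotient.mk_smul, Submodule.Quotient.eq] at hw
      exact hw
    by_cases hH : H = ⊥
    · have hJ : rightIdealJ K H = ⊥ := by
        unfold rightIdealJ
        rw [Submodule.span_eq_bot]
        rintro y ⟨h, hh, rfl⟩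
        rw [hH, Subgroup.mem_bot] at hh
        rw [hh]
        exact sub_self _
      rw [hJ, Submodule.mem_bot, sub_eq_zero] at h2
      exact ⟨⟨x, w.unop, h2, mul_eq_one_comm_free K h2⟩, rfl⟩
    · obtain ⟨r, h, hcl, hS, hU⟩ := rank_data H hfg hmax
      have hst := MulAction.stabilizer_quotient (G := FreeGroup α) H
      have hth : cl K (theta K H x) (star K w.unop) =
          Finsupp.single ((1 : FreeGroup α) : FreeGroup α ⧸ H) 1 := by
        rw [← theta_mul]
        have h3 := theta_eq_zero K H h2
        rw [map_sub, sub_eq_zero] at h3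
        have e1 : (1 : MonoidAlgebra K (FreeGroup α)) = MonoidAlgebra.single 1 1 := rfl
        rw [h3, e1, theta_single, inv_one, one_smul]
      obtain ⟨g, c, hc, hg⟩ := monomial K (X := FreeGroup α ⧸ H)
        (o := ((1 : FreeGroup α) : FreeGroup α ⧸ H))
        (fun z => MulAction.exists_smul_eq _ _ z) h (by rw [hst]; exact hcl)
        (by rw [hst, Fintype.card_fin]; exact hS) (by rw [hst]; exact hH)
        (by rw [hst]; exact hU) _ _ hth
      refine ⟨⟨MonoidAlgebra.single g⁻¹ c, MonoidAlgebra.single g c⁻¹, ?_, ?_⟩, ?_⟩
      · rw [MonoidAlgebra.single_mul_single, inv_mul_cancel, mul_inv_cancel₀ hc]; rfl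
      · rw [MonoidAlgebra.single_mul_single, mul_inv_cancel, inv_mul_cancel₀ hc]; rfl
      · rw [Submodule.Quotient.eq]
        apply sub_mem_of_theta
        rw [hg, theta_single, inv_inv]
  · rintro ⟨u, rfl⟩
    rw [eq_top_iff]
    rintro y -
    obtain ⟨x, rfl⟩ := Submodule.Quotient.mk_surjective _ y
    rw [Submodule.mem_span_singleton]
    refine ⟨MulOpposite.op ((↑u⁻¹ : MonoidAlgebra K (FreeGroup α)) * x), ?_⟩
    rw [← Submodule.Quotient.mk_smul]
    congr 1
    change (u : MonoidAlgebra K (FreeGroup α)) * ((↑u⁻¹ : MonoidAlgebra K (FreeGroup α)) * x) = x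
    rw [Units.mul_inv_cancel_left]

end Pool.Agent.Results.MP_eee65c_al.CyclicGenerators
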